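import Pool.Agent.H71.CuspContr
import Pool.Agent.H71.CuspQuasi
import Pool.Agent.H71.CuspIrr

/-!
# A contractible surface in `ℂ³` with exactly one singular point that is not quasihomogeneous
(MP_c4712b_ag, Q1, negated form)

With `S = x² + 2 - zw` let `p = 27(x+1)² + 27z(x²-w) - 9zS² + z²S³`, so that
`z p = 27(1+xz)² - 27z - (3-zS)³`. Then `p` is irreducible, its zero set `X` is contractible, `X`
has exactly one singular point `(-1, 0, -2)`, and no polynomial automorphism of `ℂ³` makes `p`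
quasihomogeneous, for any positive weights, nor for any nonnegative weights not all zero.

`X` minus the line `x = -1, z = 0` is isomorphic to the complement of the cusp `u² = v³` in `ℂ²`.
-/

open MvPolynomial

namespace Pool.Agent.Results.MP_c4712b_ag.OneSingularPoint

open Pool.Agent.H71

theorem result : ∃ p : MvPolynomial (Fin 3) ℂ,
    p = 27 * (X 0 + 1) ^ 2 + 27 * X 1 * (X 0 ^ 2 - X 2) - 9 * X 1 * (X 0 ^ 2 + 2 - X 1 * X 2) ^ 2 +
      X 1 ^ 2 * (X 0 ^ 2 + 2 - X 1 * X 2) ^ 3 ∧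
    Irreducible p ∧
    ContractibleSpace (zeroSet p) ∧
    {c | IsSingularPt p c} = {![-1, 0, -2]} ∧
    IsIsolatedSingularPt p ![-1, 0, -2] ∧
    ∀ (α : MvPolynomial (Fin 3) ℂ ≃ₐ[ℂ] MvPolynomial (Fin 3) ℂ) (w : Fin 3 → ℕ) (d : ℤ),
      w ≠ 0 → ¬ QuasiHomogeneous w d (α p) := by
  refine ⟨cuP, rfl, irreducible_cuP, contractible_cuP, ?_, ?_, ?_⟩
  · ext c
    exact singular_cuP c
  · exact ⟨(singular_cuP _).2 rfl, Set.univ, isOpen_univ, Set.mem_univ _,
      fun b _ hb => (singular_cuP b).1 hb⟩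
  · intro α w d hw
    exact not_quasi_cuP α w d hw

end Pool.Agent.Results.MP_c4712b_ag.OneSingularPoint
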